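import Pool.Agent.Helper32.ZZ.Asm7
import Pool.Agent.Helper32.ZZ.C
import Pool.Agent.Helper32.ZZ.D

/-!
MP_f8fc30_co, Q1: the conjecture on collinear centres is false.

All definitions used in the statement (`CoveredBy`, `Admissible`, `IsOptimal`, `disc`, `IsCovering`,
`density`, `thetaT`, `ThetaT`, `optVal`, `thetaC`) are in `Pool/Agent/Helper32/ZZ/Defs.lean`.
-/

open MeasureTheory Set Pointwise Filter

namespace Pool.Agent.Results.MP_f8fc30_co.ZigzagBeatsCollinear

open ZZ

/-- There are a centrally symmetric convex domain `K` and `θ > θ_c(K)` such that for every large even `n`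
optimal sets exist and none of them can be covered by `n` translates of `K` with collinear centres. -/
theorem result :
    ∃ (K : Set (ℝ × ℝ)) (θ : ℝ),
      (IsCompact K ∧ Convex ℝ K ∧ (interior K).Nonempty ∧ ∀ p ∈ K, -p ∈ K) ∧
      (thetaC K < θ ∧ ∀ θ' : ℝ, θ ≤ θ' →
        ¬ Tendsto (fun n : ℕ => optVal K θ' n / n) atTop (nhds (ThetaT K))) ∧
      ∃ N : ℕ, ∀ n : ℕ, N ≤ n → Even n →
        (∃ D, IsOptimal K θ n D) ∧
        ∀ D, IsOptimal K θ n D → ∀ x : Fin n → ℝ × ℝ,
          D ⊆ (⋃ i, (x i +ᵥ K)) → ¬ Collinear ℝ (range x) := by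
  refine ⟨K0, 20, ⟨K0_compact, K0_convex, K0_interior, K0_symm⟩,
    ⟨lt_of_le_of_lt thetaC_le (by norm_num), fun θ' h => theta_not θ' (by linarith)⟩,
    10 ^ 22, fun n hn hev => ⟨?_, fun D hD x hx => not_collinear n hev hn D hD x hx⟩⟩
  have h1 : 1 ≤ n := le_trans (by norm_num) hn
  exact exists_opt K0 K0_compact K0_convex ⟨_, K0_top⟩ 20 (by norm_num) n h1

end Pool.Agent.Results.MP_f8fc30_co.ZigzagBeatsCollinear
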